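import Mathlib

/-! Siegel's theorem, part 1: the inequality of Estermann for the values of an entire function whose
quotient by `s - 1` has alternating derivatives at `2`. -/

set_option autoImplicit false

open Finset Real
open scoped Nat

namespace Pool.Agent.H88.SG

/-- differences of `b` -/
def cf (b : ℕ → ℝ) : ℕ → ℝ
  | 0 => b 0
  | (n + 1) => b (n + 1) - b n

theorem cf_sum (b : ℕ → ℝ) (m : ℕ) : ∑ j ∈ range (m + 1), cf b j = b m := by
  induction m with
  | zero => simp [cf]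
  | succ m ih => rw [sum_range_succ, ih, cf]; ring

theorem cf_abel (b : ℕ → ℝ) (w : ℝ) (m : ℕ) :
    ∑ j ∈ range m, cf b j * (w ^ j - w ^ m) = (1 - w) * ∑ j ∈ range m, b j * w ^ j := by
  induction m with
  | zero => simp
  | succ m ih =>
    rw [sum_range_succ, sum_range_succ (fun j => b j * w ^ j)]
    have h1 : ∑ j ∈ range m, cf b j * (w ^ j - w ^ (m + 1)) =
        ∑ j ∈ range m, cf b j * (w ^ j - w ^ m) + (w ^ m - w ^ (m + 1)) *
          ∑ j ∈ range m, cf b j := by
      rw [mul_sum, ← sum_add_distrib]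
      exact sum_congr rfl fun j _ => by ring
    rw [h1, ih, mul_add]
    have h2 : ∑ j ∈ range m, cf b j + cf b m = b m := by
      rw [← sum_range_succ]; exact cf_sum b m
    have h3 : ∑ j ∈ range m, cf b j = b m - cf b m := by linarith
    rw [h3]
    ring

theorem est (H : ℂ → ℂ) (hH : Differentiable ℂ H) (b : ℕ → ℝ) (hb : ∀ m, 0 ≤ b m)
    (hb0 : 1 ≤ b 0)
    (hs : ∀ m, (-1) ^ m * iteratedDeriv m H 2 = ((m ! * cf b m : ℝ) : ℂ))
    (M : ℝ) (hM : ∀ s : ℂ, ‖s - 2‖ = 3 / 2 → ‖H s‖ ≤ M)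
    (m : ℕ) (hm : 1 ≤ m) (σ : ℝ) (h1 : 7 / 8 ≤ σ) (h2 : σ < 1) :
    (H σ).re ≤ (H 1).re * (2 - σ) ^ m - (1 - σ) * (1 - 12 * M * (3 / 4) ^ m) := by
  have hM0 : 0 ≤ M := (norm_nonneg _).trans (hM (2 + 3 / 2) (by norm_num))
  have hf : ∀ j : ℕ, (j ! : ℝ) ≠ 0 := fun j => by exact_mod_cast Nat.factorial_ne_zero j
  -- Cauchy
  have hc : ∀ j, |cf b j| ≤ M * (2 / 3) ^ j := by
    intro j
    have h := Complex.norm_iteratedDeriv_le_of_forall_mem_sphere_norm_le (c := (2 : ℂ))
      (R := 3 / 2) (C := M) (f := H) j (by norm_num) hH.diffContOnCl (by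
        intro z hz
        apply hM
        simpa [mem_sphere_iff_norm] using hz)
    have h3 : ‖iteratedDeriv j H 2‖ = j ! * |cf b j| := by
      have h4 := congrArg norm (hs j)
      rw [norm_mul, norm_pow, norm_neg, norm_one, one_pow, one_mul, Complex.norm_real,
        Real.norm_eq_abs, abs_mul, Nat.abs_cast] at h4
      exact h4
    rw [h3] at h
    have h5 : (0 : ℝ) < j ! := by positivity
    have h6 : (j ! : ℝ) * |cf b j| ≤ j ! * (M * (2 / 3) ^ j) := by
      refine h.trans (le_of_eq ?_)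
      rw [show (2 / 3 : ℝ) = (3 / 2)⁻¹ by norm_num, inv_pow]
      field_simp
    exact le_of_mul_le_mul_left h6 h5
  -- Taylor series
  have ht : ∀ x : ℝ, HasSum (fun j => cf b j * (2 - x) ^ j) (H x).re := by
    intro x
    have h := Complex.hasSum_taylorSeries_of_entire hH (2 : ℂ) (x : ℂ)
    have h3 : (fun n : ℕ => (n ! : ℂ)⁻¹ • ((x : ℂ) - 2) ^ n • iteratedDeriv n H 2) =
        fun n : ℕ => ((cf b n * (2 - x) ^ n : ℝ) : ℂ) := by
      funext n
      have h4 : iteratedDeriv n H 2 = (-1) ^ n * ((n ! * cf b n : ℝ) : ℂ) := by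
        rw [← hs n, ← mul_assoc, ← mul_pow]
        simp
      rw [h4]
      have h5 : (n ! : ℂ) ≠ 0 := by exact_mod_cast Nat.factorial_ne_zero n
      simp only [smul_eq_mul]
      push_cast
      rw [show (2 - (x : ℂ)) = (-1) * (x - 2) by ring, mul_pow]
      field_simp
    rw [h3] at h
    have h6 := Complex.hasSum_re h
    simpa only [Complex.ofReal_re] using h6
  have hw1 : 1 < 2 - σ := by linarith
  have hw2 : 2 - σ ≤ 9 / 8 := by linarith
  obtain ⟨w, hw⟩ : ∃ w : ℝ, w = 2 - σ := ⟨_, rfl⟩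
  have hA := ht σ
  have hB := ht 1
  rw [← hw] at hA hw1 hw2 ⊢
  have hB' : HasSum (fun j => cf b j) (H 1).re := by
    have e : ∀ j, cf b j * (2 - (1 : ℝ)) ^ j = cf b j := fun j => by norm_num
    simpa [e] using hB
  have hC : HasSum (fun j => cf b j * (w ^ j - w ^ m)) ((H σ).re - (H 1).re * w ^ m) := by
    have h3 := hA.sub (hB'.mul_right (w ^ m))
    have e : (fun j => cf b j * (w ^ j - w ^ m)) = fun j => cf b j * w ^ j - cf b j * w ^ m := by
      funext j; ring
    rw [e]
    exact h3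
  have hsplit := hC.summable.sum_add_tsum_nat_add m
  rw [hC.tsum_eq, cf_abel] at hsplit
  -- the head
  have hhead : (1 - w) * ∑ j ∈ range m, b j * w ^ j ≤ 1 - w := by
    have h3 : 1 ≤ ∑ j ∈ range m, b j * w ^ j := by
      have h4 : b 0 * w ^ 0 ≤ ∑ j ∈ range m, b j * w ^ j :=
        single_le_sum (f := fun j => b j * w ^ j) (fun j _ => mul_nonneg (hb j) (by positivity))
          (mem_range.2 hm)
      simp only [pow_zero, mul_one] at h4
      linarith
    nlinarith
  -- the tail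
  have htail : ‖∑' k, cf b (k + m) * (w ^ (k + m) - w ^ m)‖ ≤
      (M * (3 / 4) ^ m * (w - 1)) * 12 := by
    have hg : HasSum (fun k : ℕ => (M * (3 / 4) ^ m * (w - 1)) * (k * (3 / 4 : ℝ) ^ k))
        ((M * (3 / 4) ^ m * (w - 1)) * 12) := by
      have h3 := hasSum_coe_mul_geometric_of_norm_lt_one (𝕜 := ℝ) (r := 3 / 4)
        (by rw [Real.norm_of_nonneg] <;> norm_num)
      have h4 : (3 / 4 : ℝ) / (1 - 3 / 4) ^ 2 = 12 := by norm_num
      rw [h4] at h3
      exact h3.mul_left _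
    refine tsum_of_norm_bounded hg fun k => ?_
    have hwk : w ^ k - 1 ≤ (w - 1) * (k * (9 / 8) ^ k) := by
      have h3 : ∀ k : ℕ, w ^ k - 1 ≤ (w - 1) * (k * (9 / 8) ^ k) := by
        intro k
        induction k with
        | zero => simp
        | succ k ih =>
          have h4 : w ^ (k + 1) - 1 = w * (w ^ k - 1) + (w - 1) := by ring
          rw [h4]
          have h5 : 0 ≤ w ^ k - 1 := by
            have := one_le_pow₀ hw1.le (n := k)
            linarith
          have h6 : w * (w ^ k - 1) ≤ 9 / 8 * ((w - 1) * (k * (9 / 8) ^ k)) :=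
            mul_le_mul hw2 ih h5 (by norm_num)
          have h7 : (1 : ℝ) ≤ (9 / 8) ^ (k + 1) := one_le_pow₀ (by norm_num)
          push_cast
          have h8 : (w - 1) * 1 ≤ (w - 1) * (9 / 8) ^ (k + 1) :=
            mul_le_mul_of_nonneg_left h7 (by linarith)
          rw [pow_succ] at h8 ⊢
          nlinarith
      exact h3 k
    have hw0 : 0 ≤ w ^ k - 1 := by
      have := one_le_pow₀ hw1.le (n := k)
      linarith
    rw [norm_mul, Real.norm_eq_abs, Real.norm_eq_abs]
    have h3 : w ^ (k + m) - w ^ m = w ^ m * (w ^ k - 1) := by ring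
    rw [h3, abs_of_nonneg (mul_nonneg (by positivity) hw0)]
    have h4 : w ^ m ≤ (9 / 8) ^ m := pow_le_pow_left₀ (by linarith) hw2 m
    calc |cf b (k + m)| * (w ^ m * (w ^ k - 1))
        ≤ (M * (2 / 3) ^ (k + m)) * ((9 / 8) ^ m * ((w - 1) * (k * (9 / 8) ^ k))) := by
          apply mul_le_mul (hc _) _ (mul_nonneg (by positivity) hw0) (by positivity)
          exact mul_le_mul h4 hwk hw0 (by positivity)
      _ = (M * (3 / 4) ^ m * (w - 1)) * (k * (3 / 4 : ℝ) ^ k) := by
          rw [show (3 / 4 : ℝ) = 2 / 3 * (9 / 8) by norm_num, mul_pow, mul_pow, pow_add]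
          ring
  rw [Real.norm_eq_abs] at htail
  have h9 := le_abs_self (∑' k, cf b (k + m) * (w ^ (k + m) - w ^ m))
  have h10 : 1 - σ = w - 1 := by rw [hw]; ring
  rw [h10]
  nlinarith

end Pool.Agent.H88.SG
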