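import Pool.Agent.H88.SG.Four

/-! Siegel's theorem, part 3: Estermann's inequality. -/

set_option autoImplicit false

open Finset Real Complex Filter Topology
open scoped Nat ComplexOrder

namespace Pool.Agent.H88.SG

open Pool.Agent.H30.BV DirichletCharacter ArithmeticFunction

theorem id_sub (m : ℕ) : iteratedDeriv (m + 2) (fun s : ℂ => s - 1) 2 = 0 := by
  rw [iteratedDeriv_succ', iteratedDeriv_succ']
  have e : deriv (fun s : ℂ => s - 1) = fun _ => 1 := by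
    funext s
    simp
  rw [e]
  have e2 : deriv (fun _ : ℂ => (1 : ℂ)) = fun _ => 0 := by
    funext s
    simp
  rw [e2, iteratedDeriv_const]
  simp

section four

variable {q₁ q₂ q₃ : ℕ} [NeZero q₁] [NeZero q₂] [NeZero q₃]
    (χ₁ : DirichletCharacter ℂ q₁) (χ₂ : DirichletCharacter ℂ q₂) (Ψ : DirichletCharacter ℂ q₃)

theorem Z_eq {s : ℂ} (hs : s ≠ 1) : LFunctionTrivChar₁ 1 s = (s - 1) * riemannZeta s := by
  rw [LFunctionTrivChar₁, Function.update_of_ne hs, LFunctionTrivChar_eq_mul_riemannZeta hs]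
  simp

theorem Z_one : LFunctionTrivChar₁ 1 1 = 1 := by
  rw [LFunctionTrivChar₁, Function.update_self]
  simp

theorem H4_ev : H4 χ₁ χ₂ Ψ =ᶠ[𝓝 2] fun s => (s - 1) * F4 χ₁ χ₂ Ψ s := by
  filter_upwards [(isOpen_lt continuous_const Complex.continuous_re).mem_nhds
    (show (1 : ℝ) < (2 : ℂ).re by norm_num)] with z hz
  have hz1 : z ≠ 1 := by rintro rfl; simp at hz
  rw [H4, F4, Z_eq hz1]
  ring

theorem H4_id (m : ℕ) : iteratedDeriv (m + 1) (H4 χ₁ χ₂ Ψ) 2 =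
    iteratedDeriv (m + 1) (F4 χ₁ χ₂ Ψ) 2 + (m + 1) * iteratedDeriv m (F4 χ₁ χ₂ Ψ) 2 := by
  rw [(H4_ev χ₁ χ₂ Ψ).iteratedDeriv_eq, iteratedDeriv_fun_mul (by fun_prop) (F4_cd χ₁ χ₂ Ψ (m + 1)),
    sum_range_succ', sum_range_succ']
  rw [sum_eq_zero fun i _ => by rw [id_sub]; ring]
  simp only [zero_add, iteratedDeriv_one, iteratedDeriv_zero, Nat.choose_zero_right,
    Nat.choose_one_right, Nat.add_sub_cancel, Nat.sub_zero]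
  have e : deriv (fun s : ℂ => s - 1) 2 = 1 := by simp
  rw [e]
  push_cast
  ring

theorem H4_two : H4 χ₁ χ₂ Ψ 2 = F4 χ₁ χ₂ Ψ 2 := by
  rw [(H4_ev χ₁ χ₂ Ψ).eq_of_nhds]
  ring

theorem H4_diff (h1 : χ₁ ≠ 1) (h2 : χ₂ ≠ 1) (h3 : Ψ ≠ 1) : Differentiable ℂ (H4 χ₁ χ₂ Ψ) :=
  (((differentiable_LFunctionTrivChar₁ 1).mul (differentiable_LFunction h1)).mul
    (differentiable_LFunction h2)).mul (differentiable_LFunction h3)

theorem F4_two_nonneg (h1 : χ₁ ^ 2 = 1) (h2 : χ₂ ^ 2 = 1) (h3 : Ψ ^ 2 = 1) :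
    0 ≤ F4 χ₁ χ₂ Ψ 2 := by
  have hp : ∀ {N : ℕ} [NeZero N] (χ : DirichletCharacter ℂ N), χ ^ 2 = 1 →
      0 ≤ χ.LFunction 2 := by
    intro N _ χ h
    obtain ⟨a, b⟩ := L_two χ h
    rw [Complex.le_def]
    exact ⟨by simpa using a.le, by simpa using b.symm⟩
  have hz : (0 : ℂ) ≤ riemannZeta 2 := by
    rw [riemannZeta_two]
    have : (0 : ℂ) ≤ ((π ^ 2 / 6 : ℝ) : ℂ) := by
      rw [Complex.zero_le_real]; positivity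
    push_cast at this
    exact this
  exact mul_nonneg (mul_nonneg (mul_nonneg hz (hp χ₁ h1)) (hp χ₂ h2)) (hp Ψ h3)

theorem F4_two_ge (h1 : χ₁ ^ 2 = 1) (h2 : χ₂ ^ 2 = 1) (h3 : Ψ ^ 2 = 1)
    (hΨ : ∀ n : ℕ, Ψ (n : ZMod q₃) = cv χ₁ n * cv χ₂ n) : 1 ≤ (F4 χ₁ χ₂ Ψ 2).re := by
  have h := Pool.Agent.H11.BV.rp q₁ q₂ χ₁ χ₂ 1 (NeZero.one_le) (NeZero.one_le) h1 h2 one_pos le_rfl
  have e : (1 + ((1 : ℝ) : ℂ)) = 2 := by norm_num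
  have hs : 1 < (2 : ℂ).re := by norm_num
  have e0 : DS (fun _ => 1) 0 2 = riemannZeta 2 := by
    rw [← LSeries_one_eq_riemannZeta hs]
    unfold DS
    congr 1
    funext n
    simp
  have e3 : DS (fun n => cv χ₁ n * cv χ₂ n) 0 2 = Ψ.LFunction 2 := by
    rw [← Pool.Agent.H14.BV.DS_cv_zero Ψ hs]
    congr 1
    funext n
    exact (hΨ n).symm
  rw [e, e0, e3, Pool.Agent.H14.BV.DS_cv_zero χ₁ hs, Pool.Agent.H14.BV.DS_cv_zero χ₂ hs,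
    ← norm_mul, ← norm_mul, ← norm_mul] at h
  have h5 : ‖F4 χ₁ χ₂ Ψ 2‖ = (F4 χ₁ χ₂ Ψ 2).re := by
    have h6 := F4_two_nonneg χ₁ χ₂ Ψ h1 h2 h3
    have h7 := congrArg Complex.re (Complex.norm_of_nonneg' h6)
    rwa [Complex.ofReal_re] at h7
  rw [← h5]
  exact h

end four

theorem Z_bound : ∃ C : ℝ, 1 ≤ C ∧ ∀ s : ℂ, ‖s - 2‖ = 3 / 2 → ‖LFunctionTrivChar₁ 1 s‖ ≤ C := by
  have hc : ContinuousOn (LFunctionTrivChar₁ 1) (Metric.closedBall 2 (3 / 2)) :=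
    (differentiable_LFunctionTrivChar₁ 1).continuous.continuousOn
  obtain ⟨C, hC⟩ := (isCompact_closedBall (2 : ℂ) (3 / 2)).exists_bound_of_continuousOn hc
  refine ⟨max C 1, le_max_right _ _, fun s hs => (hC s ?_).trans (le_max_left _ _)⟩
  rw [Metric.mem_closedBall, dist_eq_norm, hs]

theorem L_bound {N : ℕ} [NeZero N] (χ : DirichletCharacter ℂ N) (hχ : χ ≠ 1) (s : ℂ)
    (hs : ‖s - 2‖ = 3 / 2) : ‖χ.LFunction s‖ ≤ 7 * N := by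
  have h1 : 1 / 2 ≤ s.re := by
    have h := Complex.abs_re_le_norm (s - 2)
    rw [hs, Complex.sub_re] at h
    have := (abs_le.1 h).1
    norm_num at this
    linarith
  have h2 : ‖s‖ ≤ 7 / 2 := by
    calc ‖s‖ = ‖(s - 2) + 2‖ := by ring_nf
      _ ≤ ‖s - 2‖ + ‖(2 : ℂ)‖ := norm_add_le _ _
      _ = 7 / 2 := by rw [hs]; norm_num
  refine (Pool.Agent.Ratios.norm_LFunction_le χ hχ s (by linarith)).trans ?_
  rw [div_le_iff₀ (by linarith)]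
  have hN : (0 : ℝ) ≤ N := Nat.cast_nonneg _
  nlinarith

/-- Estermann's inequality. -/
theorem ester : ∃ C : ℝ, 1 ≤ C ∧ ∀ (q₁ q₂ : ℕ) [NeZero q₁] [NeZero q₂] [NeZero (q₁ * q₂)]
    (χ₁ : DirichletCharacter ℂ q₁)
    (χ₂ : DirichletCharacter ℂ q₂) (Ψ : DirichletCharacter ℂ (q₁ * q₂)),
    χ₁ ^ 2 = 1 → χ₂ ^ 2 = 1 → Ψ ^ 2 = 1 → χ₁ ≠ 1 → χ₂ ≠ 1 → Ψ ≠ 1 →
    (∀ n : ℕ, Ψ (n : ZMod (q₁ * q₂)) = cv χ₁ n * cv χ₂ n) → ∀ (m : ℕ) (σ : ℝ), 1 ≤ m →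
    7 / 8 ≤ σ → σ < 1 →
    (H4 χ₁ χ₂ Ψ σ).re ≤ (χ₁.LFunction 1 * χ₂.LFunction 1 * Ψ.LFunction 1).re * (2 - σ) ^ m -
      (1 - σ) * (1 - C * ((q₁ * q₂ : ℕ) : ℝ) ^ 2 * (3 / 4) ^ m) := by
  obtain ⟨C, hC1, hC⟩ := Z_bound
  refine ⟨12 * 343 * C, by linarith, ?_⟩
  intro q₁ q₂ _ _ _ χ₁ χ₂ Ψ h1 h2 h3 n1 n2 n3 hΨ m σ hm hσ1 hσ2
  have h0 := F4_two_nonneg χ₁ χ₂ Ψ h1 h2 h3
  have ha := alt χ₁ χ₂ Ψ hΨ h1 h2 h0
  obtain ⟨b, hb⟩ : ∃ b : ℕ → ℝ, b = fun m =>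
    ((-1) ^ m * iteratedDeriv m (F4 χ₁ χ₂ Ψ) 2).re / m ! := ⟨_, rfl⟩
  have hf : ∀ j : ℕ, (j ! : ℝ) ≠ 0 := fun j => by exact_mod_cast Nat.factorial_ne_zero j
  have hbm : ∀ m, (-1) ^ m * iteratedDeriv m (F4 χ₁ χ₂ Ψ) 2 = ((m ! * b m : ℝ) : ℂ) := by
    intro m
    have h4 := ha m
    rw [Complex.le_def] at h4
    apply Complex.ext
    · rw [Complex.ofReal_re, hb]
      field_simp
    · rw [Complex.ofReal_im]
      exact h4.2.symm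
  have hb0 : ∀ m, 0 ≤ b m := by
    intro m
    have h4 := ha m
    rw [Complex.le_def] at h4
    rw [hb]
    exact div_nonneg h4.1 (by positivity)
  have hs : ∀ m, (-1) ^ m * iteratedDeriv m (H4 χ₁ χ₂ Ψ) 2 = ((m ! * cf b m : ℝ) : ℂ) := by
    intro m
    rcases m with _ | m
    · have h4 := hbm 0
      simp only [iteratedDeriv_zero] at h4 ⊢
      rw [H4_two, h4]
      rfl
    · have h4 := hbm m
      have h5 := hbm (m + 1)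
      rw [H4_id, mul_add, h5]
      have e : (-1 : ℂ) ^ (m + 1) * ((m + 1) * iteratedDeriv m (F4 χ₁ χ₂ Ψ) 2) =
          -((m + 1) * ((-1) ^ m * iteratedDeriv m (F4 χ₁ χ₂ Ψ) 2)) := by ring
      rw [e, h4]
      simp only [cf, Nat.factorial_succ]
      push_cast
      ring
  have hM : ∀ s : ℂ, ‖s - 2‖ = 3 / 2 → ‖H4 χ₁ χ₂ Ψ s‖ ≤ 343 * C * ((q₁ * q₂ : ℕ) : ℝ) ^ 2 := by
    intro s hs
    rw [H4, norm_mul, norm_mul, norm_mul]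
    have a0 := hC s hs
    have a1 := L_bound χ₁ n1 s hs
    have a2 := L_bound χ₂ n2 s hs
    have a3 := L_bound Ψ n3 s hs
    calc ‖LFunctionTrivChar₁ 1 s‖ * ‖χ₁.LFunction s‖ * ‖χ₂.LFunction s‖ * ‖Ψ.LFunction s‖ ≤
        C * (7 * q₁) * (7 * q₂) * (7 * ((q₁ * q₂ : ℕ) : ℝ)) := by gcongr
      _ = 343 * C * ((q₁ * q₂ : ℕ) : ℝ) ^ 2 := by push_cast; ring
  have hb1 : 1 ≤ b 0 := by
    have h4 := F4_two_ge χ₁ χ₂ Ψ h1 h2 h3 hΨ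
    rw [hb]
    simpa using h4
  have key := est (H4 χ₁ χ₂ Ψ) (H4_diff χ₁ χ₂ Ψ n1 n2 n3) b hb0 hb1 hs _ hM m hm σ hσ1 hσ2
  have e1 : H4 χ₁ χ₂ Ψ 1 = χ₁.LFunction 1 * χ₂.LFunction 1 * Ψ.LFunction 1 := by
    rw [H4, Z_one, one_mul]
  rw [e1] at key
  refine key.trans (le_of_eq ?_)
  ring

end Pool.Agent.H88.SG
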