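import Pool.Agent.H88.SG.Est
import Pool.Agent.H23.GLM.GL1
import Pool.Agent.Ratios.LBound
import Pool.Agent.H11.BV.RP
import Pool.Agent.H14.BV.FX

/-! Siegel's theorem, part 2: the product of four `L`-functions. -/

set_option autoImplicit false

open Finset Real Complex Filter Topology
open scoped Nat ComplexOrder

namespace Pool.Agent.H88.SG

open Pool.Agent.H30.BV DirichletCharacter ArithmeticFunction

theorem real_L {N : ℕ} [NeZero N] (χ : DirichletCharacter ℂ N) (h2 : χ ^ 2 = 1) (h1 : χ ≠ 1)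
    (x : ℝ) : (χ.LFunction x).im = 0 := by
  have hi : χ⁻¹ = χ := by
    rw [inv_eq_iff_mul_eq_one, ← sq]
    exact h2
  have h := Pool.Agent.H23.GLM.LFunction_conj' χ h1 (x : ℂ)
  rw [hi, Complex.conj_ofReal] at h
  exact Complex.conj_eq_iff_im.1 h.symm

theorem term_two {N : ℕ} (χ : DirichletCharacter ℂ N) (h2 : χ ^ 2 = 1) (n : ℕ) :
    ∃ r : ℝ, LSeries.term (fun n => χ (n : ZMod N)) 2 n = (r : ℂ) ∧ |r| ≤ 1 / (n : ℝ) ^ 2 ∧
      (n = 1 → r = 1) := by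
  rcases Nat.eq_zero_or_pos n with rfl | hn
  · exact ⟨0, by simp, by simp, by simp⟩
  · have hn1 : (1 : ℝ) ≤ n := by exact_mod_cast hn
    have e : ((n : ℂ) ^ (2 : ℂ)) = (((n : ℝ) ^ 2 : ℝ) : ℂ) := by
      rw [show (2 : ℂ) = ((2 : ℕ) : ℂ) by norm_num, Complex.cpow_natCast]
      push_cast
      rfl
    rcases Pool.Agent.H11.BV.rp_val χ h2 n with h | h | h
    · refine ⟨0, ?_, by simp, ?_⟩
      · rw [LSeries.term_of_ne_zero hn.ne']
        unfold cv at h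
        rw [h]; simp
      · rintro rfl
        unfold cv at h
        simp at h
    · refine ⟨1 / (n : ℝ) ^ 2, ?_, ?_, ?_⟩
      · rw [LSeries.term_of_ne_zero hn.ne', e]
        unfold cv at h
        rw [h]; push_cast; rfl
      · rw [abs_of_nonneg (by positivity)]
      · rintro rfl
        simp
    · refine ⟨-(1 / (n : ℝ) ^ 2), ?_, ?_, ?_⟩
      · rw [LSeries.term_of_ne_zero hn.ne', e]
        unfold cv at h
        rw [h]; push_cast; ring
      · rw [abs_neg, abs_of_nonneg (by positivity)]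
      · rintro rfl
        unfold cv at h
        simp at h
        norm_num at h

theorem L_two {N : ℕ} [NeZero N] (χ : DirichletCharacter ℂ N) (h2 : χ ^ 2 = 1) :
    0 < (χ.LFunction 2).re ∧ (χ.LFunction 2).im = 0 := by
  have hs : 1 < (2 : ℂ).re := by norm_num
  rw [LFunction_eq_LSeries χ hs]
  choose r hr1 hr2 hr3 using term_two χ h2
  have hz : HasSum (fun n : ℕ => 1 / (n : ℝ) ^ 2) (π ^ 2 / 6) := hasSum_zeta_two
  have hrs : Summable r := Summable.of_norm_bounded hz.summable fun n => by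
    rw [Real.norm_eq_abs]; exact hr2 n
  have e : LSeries (fun n => χ (n : ZMod N)) 2 = ((∑' n, r n : ℝ) : ℂ) := by
    rw [LSeries, Complex.ofReal_tsum]
    exact tsum_congr hr1
  rw [e, Complex.ofReal_re, Complex.ofReal_im]
  refine ⟨?_, rfl⟩
  -- `∑ r ≥ 2 - ζ(2)`
  have h5 : HasSum (fun n => if n = 1 then (2 : ℝ) else 0) 2 := hasSum_ite_eq 1 2
  have h6 := (hrs.hasSum.add hz).sub h5
  have h7 : 0 ≤ ∑' n, r n + π ^ 2 / 6 - 2 := by
    refine h6.nonneg fun n => ?_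
    by_cases h : n = 1
    · subst h
      rw [hr3 1 rfl]
      norm_num
    · rw [if_neg h, sub_zero]
      have := (abs_le.1 (hr2 n)).1
      show 0 ≤ r n + 1 / (n : ℝ) ^ 2
      linarith
  have := Real.pi_lt_d2
  have := Real.pi_pos
  nlinarith

/-! ### the product -/

/-- the coefficients of the logarithmic derivative -/
noncomputable def cK {q₁ q₂ : ℕ} (χ₁ : DirichletCharacter ℂ q₁) (χ₂ : DirichletCharacter ℂ q₂)
    (n : ℕ) : ℂ := (Λ n : ℂ) * ((1 + cv χ₁ n) * (1 + cv χ₂ n))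

theorem cK_nonneg {q₁ q₂ : ℕ} (χ₁ : DirichletCharacter ℂ q₁) (χ₂ : DirichletCharacter ℂ q₂)
    (h1 : χ₁ ^ 2 = 1) (h2 : χ₂ ^ 2 = 1) : 0 ≤ cK χ₁ χ₂ := by
  intro n
  have hL : (0 : ℂ) ≤ (Λ n : ℂ) := by
    exact_mod_cast vonMangoldt_nonneg
  have hv : ∀ {q : ℕ} (χ : DirichletCharacter ℂ q), χ ^ 2 = 1 → 0 ≤ 1 + cv χ n := by
    intro q χ h
    rcases Pool.Agent.H11.BV.rp_val χ h n with h | h | h <;> rw [h] <;> norm_num
  exact mul_nonneg hL (mul_nonneg (hv χ₁ h1) (hv χ₂ h2))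

/-- the product of the four functions -/
noncomputable def F4 {q₁ q₂ q₃ : ℕ} [NeZero q₁] [NeZero q₂] [NeZero q₃]
    (χ₁ : DirichletCharacter ℂ q₁) (χ₂ : DirichletCharacter ℂ q₂) (Ψ : DirichletCharacter ℂ q₃)
    (s : ℂ) : ℂ := riemannZeta s * χ₁.LFunction s * χ₂.LFunction s * Ψ.LFunction s

/-- the entire product -/
noncomputable def H4 {q₁ q₂ q₃ : ℕ} [NeZero q₁] [NeZero q₂] [NeZero q₃]
    (χ₁ : DirichletCharacter ℂ q₁) (χ₂ : DirichletCharacter ℂ q₂) (Ψ : DirichletCharacter ℂ q₃)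
    (s : ℂ) : ℂ := LFunctionTrivChar₁ 1 s * χ₁.LFunction s * χ₂.LFunction s * Ψ.LFunction s

theorem deriv_L {q : ℕ} [NeZero q] (χ : DirichletCharacter ℂ q) {s : ℂ} (hs : 1 < s.re) :
    deriv χ.LFunction s = -(LSeries (fun n => cv χ n * (Λ n : ℂ)) s * χ.LFunction s) := by
  have hev : χ.LFunction =ᶠ[𝓝 s] LSeries (fun n => χ (n : ZMod q)) := by
    filter_upwards [(isOpen_lt continuous_const Complex.continuous_re).mem_nhds hs] with z hz
    exact LFunction_eq_LSeries χ hz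
  have h := LSeries_twist_vonMangoldt_eq χ hs
  have h0 : LSeries (fun n => χ (n : ZMod q)) s ≠ 0 := LSeries_ne_zero_of_one_lt_re χ hs
  rw [hev.deriv_eq, LFunction_eq_LSeries χ hs]
  have e : LSeries (fun n => cv χ n * (Λ n : ℂ)) s =
      LSeries ((fun n : ℕ => χ (n : ZMod q)) * fun n : ℕ => (Λ n : ℂ)) s := rfl
  rw [e, h]
  field_simp

theorem deriv_zeta' {s : ℂ} (hs : 1 < s.re) :
    deriv riemannZeta s = -(LSeries (fun n => (Λ n : ℂ)) s * riemannZeta s) := by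
  have h := LSeries_vonMangoldt_eq_deriv_riemannZeta_div hs
  have h0 := riemannZeta_ne_zero_of_one_lt_re hs
  have e : LSeries (fun n => (Λ n : ℂ)) s = -deriv riemannZeta s / riemannZeta s := h
  rw [e]
  field_simp

section four

variable {q₁ q₂ q₃ : ℕ} [NeZero q₁] [NeZero q₂] [NeZero q₃]
    (χ₁ : DirichletCharacter ℂ q₁) (χ₂ : DirichletCharacter ℂ q₂) (Ψ : DirichletCharacter ℂ q₃)
    (hΨ : ∀ n : ℕ, Ψ (n : ZMod q₃) = cv χ₁ n * cv χ₂ n)

include hΨ

omit [NeZero q₁] [NeZero q₂] [NeZero q₃] in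
theorem LSeries_cK {s : ℂ} (hs : 1 < s.re) :
    LSeriesSummable (cK χ₁ χ₂) s ∧ LSeries (cK χ₁ χ₂) s = LSeries (fun n => (Λ n : ℂ)) s +
      LSeries (fun n => cv χ₁ n * (Λ n : ℂ)) s + LSeries (fun n => cv χ₂ n * (Λ n : ℂ)) s +
      LSeries (fun n => cv Ψ n * (Λ n : ℂ)) s := by
  have s0 : LSeriesSummable (fun n => (Λ n : ℂ)) s := LSeriesSummable_vonMangoldt hs
  have s1 : LSeriesSummable (fun n => cv χ₁ n * (Λ n : ℂ)) s :=
    LSeriesSummable_twist_vonMangoldt χ₁ hs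
  have s2 : LSeriesSummable (fun n => cv χ₂ n * (Λ n : ℂ)) s :=
    LSeriesSummable_twist_vonMangoldt χ₂ hs
  have s3 : LSeriesSummable (fun n => cv Ψ n * (Λ n : ℂ)) s :=
    LSeriesSummable_twist_vonMangoldt Ψ hs
  have e : cK χ₁ χ₂ = (((fun n => (Λ n : ℂ)) + fun n => cv χ₁ n * (Λ n : ℂ)) +
      fun n => cv χ₂ n * (Λ n : ℂ)) + fun n => cv Ψ n * (Λ n : ℂ) := by
    funext n
    simp only [cK, Pi.add_apply]
    have h3 : cv Ψ n = cv χ₁ n * cv χ₂ n := hΨ n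
    rw [h3]
    ring
  rw [e]
  refine ⟨((s0.add s1).add s2).add s3, ?_⟩
  rw [LSeries_add ((s0.add s1).add s2) s3, LSeries_add (s0.add s1) s2, LSeries_add s0 s1]

theorem deriv_F4 {s : ℂ} (hs : 1 < s.re) :
    deriv (F4 χ₁ χ₂ Ψ) s = -(F4 χ₁ χ₂ Ψ s * LSeries (cK χ₁ χ₂) s) := by
  have hs1 : s ≠ 1 := by rintro rfl; simp at hs
  have d0 := (differentiableAt_riemannZeta hs1)
  have d1 := differentiableAt_LFunction χ₁ s (Or.inl hs1)
  have d2 := differentiableAt_LFunction χ₂ s (Or.inl hs1)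
  have d3 := differentiableAt_LFunction Ψ s (Or.inl hs1)
  have h := ((d0.hasDerivAt.mul d1.hasDerivAt).mul d2.hasDerivAt).mul d3.hasDerivAt
  have e : F4 χ₁ χ₂ Ψ = ((riemannZeta * χ₁.LFunction) * χ₂.LFunction) * Ψ.LFunction := by
    funext s; rfl
  have h2 := h.deriv
  rw [e, h2, (LSeries_cK χ₁ χ₂ Ψ hΨ hs).2, deriv_zeta' hs, deriv_L χ₁ hs, deriv_L χ₂ hs,
    deriv_L Ψ hs]
  simp only [Pi.mul_apply]
  ring

omit hΨ in
theorem F4_diff : DifferentiableOn ℂ (F4 χ₁ χ₂ Ψ) {s | 1 < s.re} := by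
  intro s hs
  have hs1 : s ≠ 1 := by rintro rfl; simp at hs
  exact ((((differentiableAt_riemannZeta hs1).mul
    (differentiableAt_LFunction χ₁ s (Or.inl hs1))).mul
    (differentiableAt_LFunction χ₂ s (Or.inl hs1))).mul
    (differentiableAt_LFunction Ψ s (Or.inl hs1))).differentiableWithinAt

omit hΨ in
theorem F4_cd (n : ℕ) : ContDiffAt ℂ n (F4 χ₁ χ₂ Ψ) 2 :=
  ((F4_diff χ₁ χ₂ Ψ).analyticOnNhd (isOpen_lt continuous_const Complex.continuous_re) 2
    (by norm_num)).contDiffAt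

theorem alt (h1 : χ₁ ^ 2 = 1) (h2 : χ₂ ^ 2 = 1) (h0 : 0 ≤ F4 χ₁ χ₂ Ψ 2) (m : ℕ) :
    0 ≤ (-1) ^ m * iteratedDeriv m (F4 χ₁ χ₂ Ψ) 2 := by
  have hab : LSeries.abscissaOfAbsConv (cK χ₁ χ₂) < ((2 : ℝ) : EReal) := by
    refine lt_of_le_of_lt (LSeries.abscissaOfAbsConv_le_of_forall_lt_LSeriesSummable
      (x := 3 / 2) fun y hy => (LSeries_cK χ₁ χ₂ Ψ hΨ (s := y) (by simp; linarith)).1) ?_
    exact_mod_cast (by norm_num : (3 / 2 : ℝ) < 2)
  have hK := LSeries.iteratedDeriv_alternating (cK_nonneg χ₁ χ₂ h1 h2) hab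
  have hKcd : ∀ n : ℕ, ContDiffAt ℂ n (LSeries (cK χ₁ χ₂)) 2 := by
    intro n
    refine (LSeries_analyticOnNhd (cK χ₁ χ₂) 2 ?_).contDiffAt
    show LSeries.abscissaOfAbsConv (cK χ₁ χ₂) < (2 : ℂ).re
    exact_mod_cast hab
  have hK' : ∀ n : ℕ, 0 ≤ (-1) ^ n * iteratedDeriv n (LSeries (cK χ₁ χ₂)) 2 := by
    intro n
    have := hK n
    push_cast at this
    exact this
  induction m using Nat.strong_induction_on with
  | _ m ih =>
    rcases m with _ | m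
    · simpa using h0
    · have hev : deriv (F4 χ₁ χ₂ Ψ) =ᶠ[𝓝 2] fun s => -(F4 χ₁ χ₂ Ψ s * LSeries (cK χ₁ χ₂) s) := by
        filter_upwards [(isOpen_lt continuous_const Complex.continuous_re).mem_nhds
          (show (1 : ℝ) < (2 : ℂ).re by norm_num)] with z hz
        exact deriv_F4 χ₁ χ₂ Ψ hΨ hz
      rw [iteratedDeriv_succ', hev.iteratedDeriv_eq, iteratedDeriv_fun_neg,
        iteratedDeriv_fun_mul (F4_cd χ₁ χ₂ Ψ m) (hKcd m)]
      rw [pow_succ, mul_assoc, neg_one_mul, neg_neg, mul_sum]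
      refine sum_nonneg fun i hi => ?_
      have hi' : i ≤ m := by simpa [Nat.lt_succ_iff] using hi
      have e : ((-1 : ℂ)) ^ m = (-1) ^ i * (-1) ^ (m - i) := by rw [← pow_add, Nat.add_sub_cancel' hi']
      rw [e]
      have a1 := ih i (by omega)
      have a2 := hK' (m - i)
      have a3 : (0 : ℂ) ≤ (m.choose i : ℂ) := by exact_mod_cast Nat.zero_le _
      have := mul_nonneg (mul_nonneg a3 a1) a2
      calc (0 : ℂ) ≤ _ := this
        _ = _ := by ring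

end four

end Pool.Agent.H88.SG
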